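import Pool.Agent.H458.AR.Fld

set_option autoImplicit false

/-!
# Project AR (helper458), part HNS: Hensel's lemma for squares in `ℤ_p[X] / (f)`
-/

namespace Pool.Agent.H722.AR458

open Polynomial

theorem mem_smul_top_iff {R M ι : Type} [CommRing R] [AddCommGroup M] [Module R M] [Fintype ι]
    (b : Module.Basis ι R M) (r : R) (x : M) :
    x ∈ (Ideal.span {r} : Ideal R) • (⊤ : Submodule R M) ↔
      ∀ i, b.repr x i ∈ (Ideal.span {r} : Ideal R) • (⊤ : Submodule R R) := by
  rw [Submodule.ideal_span_singleton_smul]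
  constructor
  · intro hx i
    rw [Submodule.mem_smul_pointwise_iff_exists] at hx
    obtain ⟨y, -, rfl⟩ := hx
    rw [Submodule.ideal_span_singleton_smul, Submodule.mem_smul_pointwise_iff_exists]
    exact ⟨b.repr y i, trivial, by simp⟩
  · intro hx
    have h1 : ∀ i, ∃ c : R, r * c = b.repr x i := by
      intro i
      have h2 := hx i
      rw [Submodule.ideal_span_singleton_smul, Submodule.mem_smul_pointwise_iff_exists] at h2
      obtain ⟨c, -, hc⟩ := h2
      exact ⟨c, hc⟩
    choose c hc using h1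
    rw [Submodule.mem_smul_pointwise_iff_exists]
    refine ⟨∑ i, c i • b i, trivial, ?_⟩
    rw [Finset.smul_sum, ← b.sum_repr x]
    refine Finset.sum_congr rfl fun i _ => ?_
    rw [smul_smul, hc i]

theorem adicComplete_of_basis {R M ι : Type} [CommRing R] [AddCommGroup M] [Module R M] [Fintype ι]
    (b : Module.Basis ι R M) (r : R) (hR : IsAdicComplete (Ideal.span {r} : Ideal R) R) :
    IsAdicComplete (Ideal.span {r} : Ideal R) M := by
  refine { haus' := fun x hx => ?_, prec' := fun f hf => ?_ }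
  · rw [← b.sum_repr x]
    refine Finset.sum_eq_zero fun i _ => ?_
    have h1 : b.repr x i = 0 := by
      refine hR.haus' _ fun n => ?_
      have h2 := hx n
      rw [SModEq.zero, Ideal.span_singleton_pow] at h2 ⊢
      exact (mem_smul_top_iff b _ x).1 h2 i
    rw [h1, zero_smul]
  · have h1 : ∀ i, ∃ L : R, ∀ n, b.repr (f n) i ≡ L
        [SMOD ((Ideal.span {r} : Ideal R) ^ n • ⊤ : Submodule R R)] := by
      intro i
      refine hR.prec' (fun n => b.repr (f n) i) ?_
      intro m n hmn
      have h2 := hf hmn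
      rw [SModEq.sub_mem, Ideal.span_singleton_pow] at h2 ⊢
      have h3 := (mem_smul_top_iff b _ _).1 h2 i
      rw [map_sub, Finsupp.sub_apply] at h3
      exact h3
    choose L hL using h1
    refine ⟨∑ i, L i • b i, fun n => ?_⟩
    rw [SModEq.sub_mem, Ideal.span_singleton_pow]
    refine (mem_smul_top_iff b _ _).2 fun i => ?_
    have h2 := hL i n
    rw [SModEq.sub_mem, Ideal.span_singleton_pow] at h2
    rw [map_sub, Finsupp.sub_apply, b.repr_sum_self]
    exact h2

theorem hns : Pool.Agent.H458.AR.S_HNS := by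
  intro p hp hp2 f h g hf hcop hdvd
  set I : Ideal ℤ_[p] := Ideal.span {(p : ℤ_[p])} with hI
  have hImax : IsLocalRing.maximalIdeal ℤ_[p] = I := PadicInt.maximalIdeal_eq_span_p
  have hIc : IsAdicComplete I ℤ_[p] := by
    rw [← hImax]
    infer_instance
  let pb := AdjoinRoot.powerBasis' hf
  have hA : IsAdicComplete I (AdjoinRoot f) := adicComplete_of_basis pb.basis _ hIc
  set J : Ideal (AdjoinRoot f) := I.map (algebraMap ℤ_[p] (AdjoinRoot f)) with hJ
  have hAJ : IsAdicComplete J (AdjoinRoot f) := by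
    rw [hJ, IsAdicComplete.map_algebraMap_iff]
    exact hA
  have hH : HenselianRing (AdjoinRoot f) J := inferInstance
  -- polynomials with coefficients in `I`
  have hmem : ∀ q : ℤ_[p][X], q.map (PadicInt.toZMod : ℤ_[p] →+* ZMod p) = 0 →
      AdjoinRoot.mk f q ∈ J := by
    intro q hq
    have h1 : q ∈ I.map (C : ℤ_[p] →+* ℤ_[p][X]) := by
      rw [Ideal.mem_map_C_iff]
      intro n
      rw [← hImax, ← PadicInt.ker_toZMod, RingHom.mem_ker, ← coeff_map, hq, coeff_zero]
    have h2 := Ideal.mem_map_of_mem (AdjoinRoot.mk f) h1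
    rw [Ideal.map_map] at h2
    exact h2
  have hsurj : Function.Surjective
      (Polynomial.map (PadicInt.toZMod : ℤ_[p] →+* ZMod p)) :=
    Polynomial.map_surjective _ (ZMod.ringHom_surjective _)
  -- `g ^ 2` is `h` modulo `J`
  have h1 : AdjoinRoot.mk f (g ^ 2 - h) ∈ J := by
    obtain ⟨c, hc⟩ := hdvd
    obtain ⟨q, rfl⟩ := hsurj c
    have h2 := hmem (h - g ^ 2 - f * q) (by
      rw [Polynomial.map_sub, hc, Polynomial.map_mul, sub_self])
    have h3 : AdjoinRoot.mk f (g ^ 2 - h) = - AdjoinRoot.mk f (h - g ^ 2 - f * q) := by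
      rw [← map_neg]
      rw [AdjoinRoot.mk_eq_mk]
      exact ⟨-q, by ring⟩
    rw [h3]
    exact J.neg_mem h2
  -- `h` is a unit modulo `J`
  obtain ⟨u, v, huv⟩ := hcop
  obtain ⟨u, rfl⟩ := hsurj u
  obtain ⟨v, rfl⟩ := hsurj v
  have h2 : AdjoinRoot.mk f (u * h - 1) ∈ J := by
    have h3 := hmem (u * h + v * f - 1) (by
      rw [Polynomial.map_sub, Polynomial.map_add, Polynomial.map_mul, Polynomial.map_mul,
        Polynomial.map_one, huv, sub_self])
    have h4 : AdjoinRoot.mk f (u * h - 1) = AdjoinRoot.mk f (u * h + v * f - 1) := by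
      rw [AdjoinRoot.mk_eq_mk]
      exact ⟨-v, by ring⟩
    rw [h4]
    exact h3
  have hunit2 : IsUnit (2 : ℤ_[p]) := by
    rw [← IsLocalRing.notMem_maximalIdeal, ← PadicInt.ker_toZMod, RingHom.mem_ker]
    intro h3
    rw [map_ofNat] at h3
    have h4 : ((2 : ℕ) : ZMod p) = 0 := by exact_mod_cast h3
    rw [ZMod.natCast_eq_zero_iff] at h4
    exact hp2 ((Nat.prime_dvd_prime_iff_eq hp.out Nat.prime_two).1 h4)
  obtain ⟨a, ha, -⟩ := hH.is_henselian (X ^ 2 - C (AdjoinRoot.mk f h))
    (monic_X_pow_sub_C _ two_ne_zero) (AdjoinRoot.mk f g)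
    (by
      rw [eval_sub, eval_pow, eval_X, eval_C, ← map_pow, ← map_sub]
      exact h1)
    (by
      have e1 : (X ^ 2 - C (AdjoinRoot.mk f h)).derivative.eval (AdjoinRoot.mk f g) =
          algebraMap ℤ_[p] (AdjoinRoot f) 2 * AdjoinRoot.mk f g := by
        rw [map_ofNat]
        simp
        norm_num
      rw [e1, map_mul]
      refine IsUnit.mul ((hunit2.map _).map _) ?_
      have e2 : Ideal.Quotient.mk J (AdjoinRoot.mk f u) * Ideal.Quotient.mk J (AdjoinRoot.mk f g) *
          Ideal.Quotient.mk J (AdjoinRoot.mk f g) = 1 := by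
        have e3 := Ideal.Quotient.eq_zero_iff_mem.2 h1
        have e4 := Ideal.Quotient.eq_zero_iff_mem.2 h2
        rw [map_sub, map_pow, map_sub, map_pow, sub_eq_zero] at e3
        rw [map_sub, map_mul, map_sub, map_mul, map_one, map_one, sub_eq_zero] at e4
        rw [mul_assoc, ← sq, e3, e4]
      exact IsUnit.of_mul_eq_one_right _ e2)
  obtain ⟨g', rfl⟩ := AdjoinRoot.mk_surjective a
  refine ⟨g', ?_⟩
  rw [← AdjoinRoot.mk_eq_zero, map_sub, map_pow, sub_eq_zero]
  rw [IsRoot.def, eval_sub, eval_pow, eval_X, eval_C, sub_eq_zero] at ha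
  exact ha.symm

end Pool.Agent.H722.AR458

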